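import Pool.Agent.Helper61.PV.St

/-! PV module BOX: polynomials in a class modulo `W` form a box. -/

set_option autoImplicit false

namespace Pool.Agent.Helper28.PV

open Pool.Agent.Helper61.PV Finset

/-- lower end -/
private theorem lo_iff {W F lo g : ℤ} (hW : 0 < W) : lo ≤ F + W * g ↔ -((F - lo) / W) ≤ g := by
  have h : -((F - lo) / W) ≤ g ↔ -g ≤ (F - lo) / W := by constructor <;> intro h <;> linarith
  rw [h, Int.le_ediv_iff_mul_le hW]
  constructor <;> intro h <;> nlinarith

/-- upper end -/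
private theorem up_iff {W F H g : ℤ} (hW : 0 < W) : F + W * g ≤ H ↔ g ≤ (H - F) / W := by
  rw [Int.le_ediv_iff_mul_le hW]
  constructor <;> intro h <;> nlinarith

theorem hBox : StBox := by
  intro W κ hW hκ hκ4
  refine ⟨2 * W, fun H hH d F hF => ?_⟩
  have hW' : (0 : ℤ) < W := by exact_mod_cast hW
  set K : ℤ := max 1 ⌈κ * H⌉ with hK
  set lo : Fin (d + 1) → ℤ := fun i => if (i : ℕ) < d then -(H : ℤ) else K with hlo
  set A : Fin (d + 1) → ℤ := fun i => -((F i - lo i) / W) with hA
  set U : Fin (d + 1) → ℤ := fun i => ((H : ℤ) - F i) / W with hU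
  have hHr : 2 * (W : ℝ) ≤ H := by exact_mod_cast hH
  have hWr : (1 : ℝ) ≤ W := by exact_mod_cast hW
  have hH0 : (0 : ℝ) ≤ H := Nat.cast_nonneg H
  have hK1 : 1 ≤ K := le_max_left _ _
  have hK2 : κ * H ≤ K := by
    have h1 : κ * H ≤ (⌈κ * H⌉ : ℝ) := Int.le_ceil _
    have h2 : ((⌈κ * H⌉ : ℤ) : ℝ) ≤ (K : ℝ) := by exact_mod_cast le_max_right _ _
    linarith
  have hK3 : (K : ℝ) ≤ κ * H + 1 := by
    have h1 : (⌈κ * H⌉ : ℝ) < κ * H + 1 := Int.ceil_lt_add_one _
    have h0 : 0 ≤ κ * H := by positivity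
    rw [hK]
    push_cast
    exact max_le (by linarith) h1.le
  -- the difference
  have hdiff : ∀ i, (H : ℤ) - lo i - W + 2 ≤ W * (U i - A i + 1) := by
    intro i
    have h1 := Int.emod_add_mul_ediv ((H : ℤ) - F i) W
    have h2 := Int.emod_add_mul_ediv (F i - lo i) W
    have h3 := Int.emod_lt_of_pos ((H : ℤ) - F i) hW'
    have h4 := Int.emod_lt_of_pos (F i - lo i) hW'
    have h5 : (W : ℤ) * (U i - A i + 1) = W * (((H : ℤ) - F i) / W) + W * ((F i - lo i) / W) + W := by
      simp only [hU, hA]; ring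
    rw [h5]
    linarith
  have hreal : ∀ i, κ * H ≤ ((H : ℤ) - lo i - W + 2 : ℤ) := by
    intro i
    push_cast
    simp only [hlo]
    split_ifs with hi
    · push_cast
      nlinarith
    · nlinarith
  have hpos : ∀ i, 0 ≤ U i - A i + 1 := by
    intro i
    by_contra hcon
    push Not at hcon
    have h1 : (W : ℤ) * (U i - A i + 1) < 0 := by nlinarith
    have h2 : ((H : ℤ) - lo i - W + 2 : ℤ) < 0 := lt_of_le_of_lt (hdiff i) h1
    have h3 : (((H : ℤ) - lo i - W + 2 : ℤ) : ℝ) < 0 := by exact_mod_cast h2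
    have h4 := hreal i
    have h0 : 0 ≤ κ * H := by positivity
    linarith
  have hh : ∀ i, (((U i - A i + 1).toNat : ℕ) : ℤ) = U i - A i + 1 := fun i =>
    Int.toNat_of_nonneg (hpos i)
  have hlast : ¬ ((Fin.last d : Fin (d + 1)) : ℕ) < d := by simp
  refine ⟨A, fun i => (U i - A i + 1).toNat, ⟨hF, ?_, ?_, ?_⟩, ?_⟩
  · intro i
    have h1 : (((U i - A i + 1).toNat : ℕ) : ℝ) = ((U i - A i + 1 : ℤ) : ℝ) := by
      exact_mod_cast hh i
    have h2 : (((H : ℤ) - lo i - W + 2 : ℤ) : ℝ) ≤ ((W * (U i - A i + 1) : ℤ) : ℝ) := by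
      exact_mod_cast hdiff i
    calc κ * H ≤ (((H : ℤ) - lo i - W + 2 : ℤ) : ℝ) := hreal i
      _ ≤ ((W * (U i - A i + 1) : ℤ) : ℝ) := h2
      _ = W * (((U i - A i + 1).toNat : ℕ) : ℝ) := by rw [h1]; push_cast; ring
  · intro i
    have h1 : lo i ≤ F i + W * A i := (lo_iff hW').2 le_rfl
    have h2 : F i + W * U i ≤ H := (up_iff hW').2 le_rfl
    have h3 : -(H : ℤ) ≤ lo i := by
      simp only [hlo]
      split_ifs
      · exact le_rfl
      · have : (0 : ℤ) ≤ H := Nat.cast_nonneg H
        linarith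
    refine ⟨h3.trans h1, ?_⟩
    rw [hh i]
    have h4 : A i + (U i - A i + 1) - 1 = U i := by ring
    rw [h4]
    exact h2
  · have h1 : lo (Fin.last d) ≤ F (Fin.last d) + W * A (Fin.last d) := (lo_iff hW').2 le_rfl
    have h2 : lo (Fin.last d) = K := by simp [hlo]
    rw [h2] at h1
    have h3 : (K : ℝ) ≤ ((F (Fin.last d) + W * A (Fin.last d) : ℤ) : ℝ) := by exact_mod_cast h1
    exact hK2.trans h3
  · intro g
    have hL : g ∈ Bx A (fun i => (U i - A i + 1).toNat) ↔
        ∀ i, lo i ≤ F i + W * g i ∧ F i + W * g i ≤ H := by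
      simp only [Bx, Fintype.mem_piFinset, mem_Ico]
      refine forall_congr' fun i => ?_
      rw [lo_iff hW', up_iff hW', hh i]
      have h4 : A i + (U i - A i + 1) = U i + 1 := by ring
      rw [h4, Int.lt_add_one_iff]
    rw [hL]
    simp only [Bxx, Bx, Fintype.mem_piFinset, mem_Ico, lin]
    constructor
    · intro h
      constructor
      · intro i
        have h1 := h i
        by_cases hi : (i : ℕ) < d
        · simp only [hlo, if_pos hi] at h1 ⊢
          push_cast
          constructor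
          · exact h1.1
          · linarith [h1.2]
        · simp only [hlo, if_neg hi] at h1 ⊢
          constructor
          · linarith [h1.1]
          · linarith [h1.2]
      · have h1 := (h (Fin.last d)).1
        have h2 : lo (Fin.last d) = K := by simp [hlo]
        rw [h2] at h1
        have h3 : (K : ℝ) ≤ ((F (Fin.last d) + W * g (Fin.last d) : ℤ) : ℝ) := by exact_mod_cast h1
        exact hK2.trans h3
    · rintro ⟨h, hκl⟩ i
      have h1 := h i
      by_cases hi : (i : ℕ) < d
      · simp only [hlo, if_pos hi] at h1 ⊢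
        push_cast at h1
        exact ⟨h1.1, by linarith [h1.2]⟩
      · simp only [hlo, if_neg hi] at h1 ⊢
        have hil : i = Fin.last d := by
          apply Fin.ext
          simp only [Fin.val_last]
          have := i.2
          omega
        subst hil
        refine ⟨?_, by linarith [h1.2]⟩
        rw [hK]
        refine max_le h1.1 ?_
        rw [Int.ceil_le]
        exact hκl

end Pool.Agent.Helper28.PV
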